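import Pool.Agent.H71.GW.Targets

/-!
Module CNT (MP_684e05_nt): number of completions.
-/

set_option autoImplicit false

open Finset
open scoped Classical

namespace Pool.Agent.H36.GW.CNT

open Pool.Agent.H71.GW

section

variable {J : Type} [Fintype J] [DecidableEq J]

theorem wt_single (κ : J → ℕ) (x : J) (e : ℕ) : wt (κ + Pi.single x e) = wt κ + e := by
  unfold wt
  simp only [Pi.add_apply]
  rw [Finset.sum_add_distrib, Finset.sum_pi_single']
  simp

theorem len_single (κ : J → ℕ) (x : J) (e : ℕ) (h : κ x = 0) :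
    len (κ + Pi.single x (e + 1)) = len κ + 1 := by
  unfold len
  have h1 : (univ.filter fun j => (κ + (Pi.single x (e + 1) : J → ℕ)) j ≠ 0) =
      insert x (univ.filter fun j => κ j ≠ 0) := by
    ext j
    simp only [Pi.add_apply, mem_filter, mem_univ, true_and, mem_insert]
    by_cases hj : j = x
    · subst hj
      simp
    · rw [Pi.single_eq_of_ne hj]
      simp [hj]
  rw [h1, Finset.card_insert_of_notMem]
  simp [h]

theorem le_of_single {κ u : J → ℕ} {x : J} {e : ℕ} (h : κ + Pi.single x e ≤ u) : κ ≤ u := by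
  intro j
  have h1 : κ j + (Pi.single x e : J → ℕ) j ≤ u j := h j
  exact le_trans (Nat.le_add_right _ _) h1

theorem card_new {κ u : J → ℕ} (h : κ ≤ u) :
    #{x | κ x = 0 ∧ u x ≠ 0} + len κ = len u := by
  unfold len
  rw [← Finset.card_union_of_disjoint]
  · congr 1
    ext x
    simp only [mem_union, mem_filter, mem_univ, true_and]
    have h0 : κ x ≤ u x := h x
    constructor
    · rintro (h1 | h1)
      · exact h1.2
      · omega
    · intro h1
      by_cases h2 : κ x = 0
      · exact Or.inl ⟨h2, h1⟩
      · exact Or.inr h2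
  · rw [Finset.disjoint_filter]
    intro x _ h1 h2
    exact h2 h1.1

theorem psi_rec (κ z : J → ℕ) (n b : ℕ) (hn : wt κ + (b + 1) = n) :
    psi n κ z = ∑ x ∈ univ.filter (fun x => κ x = 0), psi n (κ + Pi.single x 1) z := by
  by_cases h : κ ≤ z
  · have h1 : ∀ x ∈ univ.filter (fun x => κ x = 0), psi n (κ + Pi.single x 1) z =
        if z x ≠ 0 then (len z - len κ - 1).descFactorial b else 0 := by
      intro x hx
      rw [mem_filter] at hx
      unfold psi
      have h2 : κ + Pi.single x 1 ≤ z ↔ z x ≠ 0 := by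
        constructor
        · intro h3
          have h4 : κ x + (Pi.single x 1 : J → ℕ) x ≤ z x := h3 x
          rw [Pi.single_eq_same] at h4
          omega
        · intro h3 j
          show κ j + (Pi.single x 1 : J → ℕ) j ≤ z j
          by_cases hj : j = x
          · subst hj
            rw [Pi.single_eq_same, hx.2]
            omega
          · rw [Pi.single_eq_of_ne hj, add_zero]
            exact h j
      simp only [h2]
      have h4 := len_single κ x 0 hx.2
      rw [Nat.zero_add] at h4
      rw [h4, wt_single]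
      have h5 : n - (wt κ + 1) = b := by omega
      rw [h5, Nat.sub_add_eq]
    rw [Finset.sum_congr rfl h1, ← Finset.sum_filter, Finset.filter_filter, Finset.sum_const,
      smul_eq_mul]
    have h6 := card_new h
    have h7 : #{x | κ x = 0 ∧ z x ≠ 0} = len z - len κ := by omega
    rw [h7]
    unfold psi
    rw [if_pos h]
    have h8 : n - wt κ = b + 1 := by omega
    rw [h8]
    rcases Nat.eq_zero_or_pos (len z - len κ) with h9 | h9
    · rw [h9]
      simp
    · obtain ⟨L, hL⟩ := Nat.exists_eq_succ_of_ne_zero h9.ne'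
      rw [hL, Nat.succ_descFactorial_succ]
      simp
  · have h1 : ∀ x ∈ univ.filter (fun x => κ x = 0), psi n (κ + Pi.single x 1) z = 0 := by
      intro x _
      unfold psi
      rw [if_neg fun h2 => h (le_of_single h2)]
    rw [Finset.sum_congr rfl h1, Finset.sum_const_zero]
    unfold psi
    rw [if_neg h]

end

section

variable {ι : Type} [Fintype ι]

/-- coordinates which can be added -/
noncomputable def fresh (κ : ι × Bool → ℕ) : Finset (ι × Bool) :=
  univ.filter fun x => κ x = 0 ∧ Val (κ + Pi.single x 1)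

theorem val_of_le {κ u : ι × Bool → ℕ} (h : κ ≤ u) (hu : Val u) : Val κ := by
  intro j
  have h1 : κ (j, true) ≤ u (j, true) := h (j, true)
  have h2 : κ (j, false) ≤ u (j, false) := h (j, false)
  rcases hu j with h3 | h3
  · left; omega
  · right; omega

theorem sum_zero {n : ℕ} {Z : Finset (ι × Bool → ℕ)} (hZ : ∀ z ∈ Z, Val z) {κ : ι × Bool → ℕ}
    (hκ : ¬ Val κ) : ∑ z ∈ Z, (psi n κ z : ℤ) = 0 := by
  refine Finset.sum_eq_zero fun z hz => ?_
  unfold psi
  rw [if_neg fun h => hκ (val_of_le h (hZ z hz))]
  rfl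

theorem sum_rec {n b : ℕ} {Z : Finset (ι × Bool → ℕ)} (hZ : ∀ z ∈ Z, Val z) {κ : ι × Bool → ℕ}
    (hn : wt κ + (b + 1) = n) :
    ∑ z ∈ Z, (psi n κ z : ℤ) = ∑ x ∈ fresh κ, ∑ z ∈ Z, (psi n (κ + Pi.single x 1) z : ℤ) := by
  have h1 : ∀ z ∈ Z, (psi n κ z : ℤ) =
      ∑ x ∈ univ.filter (fun x => κ x = 0), (psi n (κ + Pi.single x 1) z : ℤ) := by
    intro z _
    rw [psi_rec κ z n b hn]
    push_cast
    rfl
  rw [Finset.sum_congr rfl h1, Finset.sum_comm]
  symm
  refine Finset.sum_subset ?_ ?_
  · intro x hx
    unfold fresh at hx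
    rw [mem_filter] at hx ⊢
    exact ⟨hx.1, hx.2.1⟩
  · intro x hx hx'
    refine sum_zero hZ fun hv => hx' ?_
    unfold fresh
    rw [mem_filter] at hx ⊢
    exact ⟨hx.1, hx.2, hv⟩

theorem card_fresh {κ : ι × Bool → ℕ} (hκ : Val κ) :
    (fresh κ).card + 2 * len κ = 2 * Fintype.card ι := by
  set F : Finset ι := univ.filter fun j => κ (j, true) = 0 ∧ κ (j, false) = 0 with hF
  have h1 : fresh κ = F ×ˢ (univ : Finset Bool) := by
    ext ⟨j, c⟩
    simp only [fresh, hF, mem_filter, mem_univ, true_and, mem_product, and_true]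
    constructor
    · rintro ⟨h2, h3⟩
      have h4 := h3 j
      rcases c with _ | _
      · rcases h4 with h4 | h4
        · simp only [Pi.add_apply] at h4
          exact ⟨by omega, h2⟩
        · rw [Pi.add_apply, Pi.single_eq_same] at h4
          omega
      · rcases h4 with h4 | h4
        · rw [Pi.add_apply, Pi.single_eq_same] at h4
          omega
        · simp only [Pi.add_apply] at h4
          exact ⟨h2, by omega⟩
    · rintro ⟨h2, h3⟩
      refine ⟨by rcases c with _ | _ <;> assumption, ?_⟩
      intro i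
      by_cases hi : i = j
      · subst hi
        rcases c with _ | _
        · left
          rw [Pi.add_apply, h2, Pi.single_eq_of_ne (by simp), add_zero]
        · right
          rw [Pi.add_apply, h3, Pi.single_eq_of_ne (by simp), add_zero]
      · rcases hκ i with h4 | h4
        · left
          rw [Pi.add_apply, h4, Pi.single_eq_of_ne (by simp [hi]), add_zero]
        · right
          rw [Pi.add_apply, h4, Pi.single_eq_of_ne (by simp [hi]), add_zero]
  have h2 : len κ = Fᶜ.card := by
    unfold len
    rw [← Finset.card_image_of_injOn (s := univ.filter fun x => κ x ≠ 0) (f := Prod.fst)]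
    · congr 1
      ext j
      simp only [mem_image, mem_filter, mem_univ, true_and, mem_compl, hF, Prod.exists,
        exists_and_right, exists_eq_right, not_and_or, Bool.exists_bool]
      tauto
    · rintro ⟨j, c⟩ hx ⟨j', c'⟩ hx' hjj
      simp only [coe_filter, mem_univ, true_and, Set.mem_ofPred_eq] at hx hx'
      simp only at hjj
      subst hjj
      rcases hκ j with h4 | h4 <;> rcases c with _ | _ <;> rcases c' with _ | _ <;> simp_all
  have h3 := Finset.card_compl_add_card F
  rw [h1, Finset.card_product, h2]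
  simp only [Finset.card_univ, Fintype.card_bool]
  omega

theorem nu_succ (m c : ℕ) (h : c ≤ m) : nu m (c + 1) = 2 * ((m : ℤ) - c) * nu m c := by
  unfold nu
  rw [Nat.descFactorial_succ, pow_succ]
  push_cast [Nat.cast_sub h]
  ring

theorem nu_zero (m c : ℕ) (h : m < c) : nu m c = 0 := by
  unfold nu
  rw [Nat.descFactorial_eq_zero_iff_lt.2 h]
  simp

theorem nu_nonneg (m c : ℕ) : 0 ≤ nu m c := by
  unfold nu
  positivity

theorem main {n : ℕ} {Z : Finset (ι × Bool → ℕ)} (hZ : ∀ z ∈ Z, Val z)
    (hu : ∀ p : ι × Bool → ℕ, Val p → wt p = n → ∃! z, z ∈ Z ∧ p ≤ z) (b : ℕ) :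
    ∀ κ : ι × Bool → ℕ, Val κ → wt κ + b = n →
      (∑ z ∈ Z, (psi n κ z : ℤ)) * nu (Fintype.card ι) (len κ) =
        nu (Fintype.card ι) (len κ + b) := by
  induction b with
  | zero =>
    intro κ hκ hn
    obtain ⟨z0, ⟨hz0, hle⟩, huniq⟩ := hu κ hκ (by omega)
    have h1 : ∑ z ∈ Z, (psi n κ z : ℤ) = 1 := by
      rw [Finset.sum_eq_single z0]
      · unfold psi
        rw [if_pos hle]
        have : n - wt κ = 0 := by omega
        rw [this]
        simp
      · intro z hz hne
        unfold psi
        rw [if_neg fun h => hne (huniq z ⟨hz, h⟩)]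
        rfl
      · intro h
        exact absurd hz0 h
    rw [h1, one_mul, add_zero]
  | succ b ih =>
    intro κ hκ hn
    have hcard := card_fresh hκ
    rw [sum_rec hZ hn]
    have h1 : ∀ x ∈ fresh κ, (∑ z ∈ Z, (psi n (κ + Pi.single x 1) z : ℤ)) *
        nu (Fintype.card ι) (len κ + 1) = nu (Fintype.card ι) (len κ + 1 + b) := by
      intro x hx
      unfold fresh at hx
      rw [mem_filter] at hx
      have h2 := ih (κ + Pi.single x 1) hx.2.2 (by rw [wt_single]; omega)
      have h3 := len_single κ x 0 hx.2.1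
      rw [Nat.zero_add] at h3
      rw [h3] at h2
      exact h2
    have hle : len κ ≤ Fintype.card ι := by omega
    rcases Nat.eq_or_lt_of_le hle with h4 | h4
    · have h5 : fresh κ = ∅ := by
        rw [← Finset.card_eq_zero]
        omega
      rw [h5, Finset.sum_empty, zero_mul, nu_zero _ _ (by omega)]
    · have hK : ((fresh κ).card : ℤ) = 2 * ((Fintype.card ι : ℤ) - len κ) := by
        have : ((fresh κ).card : ℤ) + 2 * len κ = 2 * Fintype.card ι := by exact_mod_cast hcard
        linarith
      have hK0 : (0 : ℤ) < ((fresh κ).card : ℤ) := by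
        have : 0 < (fresh κ).card := by omega
        exact_mod_cast this
      have h6 := nu_succ (Fintype.card ι) (len κ) hle
      rw [← hK] at h6
      have h7 : ((fresh κ).card : ℤ) *
          ((∑ x ∈ fresh κ, ∑ z ∈ Z, (psi n (κ + Pi.single x 1) z : ℤ)) *
            nu (Fintype.card ι) (len κ)) =
          ((fresh κ).card : ℤ) * nu (Fintype.card ι) (len κ + 1 + b) := by
        calc _ = ∑ x ∈ fresh κ, (∑ z ∈ Z, (psi n (κ + Pi.single x 1) z : ℤ)) *
              nu (Fintype.card ι) (len κ + 1) := by
              rw [h6, ← Finset.sum_mul]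
              ring
          _ = ∑ _x ∈ fresh κ, nu (Fintype.card ι) (len κ + 1 + b) := Finset.sum_congr rfl h1
          _ = _ := by rw [Finset.sum_const, nsmul_eq_mul]
      have h8 := mul_left_cancel₀ hK0.ne' h7
      rw [h8]
      congr 1
      ring

end

theorem cnt : T_CNT := by
  intro ι _ n Z hZ hu κ
  refine ⟨fun h => sum_zero hZ h, fun h hle => ?_⟩
  exact main hZ hu (n - wt κ) κ h (by omega)

end Pool.Agent.H36.GW.CNT
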