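import Pool.Agent.H36.GW.CNT

/-!
Module IDN (MP_684e05_nt): the class inequality as a lower bound for the number of additional units.
-/

set_option autoImplicit false

open Finset
open scoped Classical

namespace Pool.Agent.H36.GW.IDN

open Pool.Agent.H71.GW Pool.Agent.H36.GW.CNT

section

variable {ι : Type} [Fintype ι]

/-- sums of the class inequality over the completions -/
theorem cls_sum {s i : ℕ} (S : Sys ι s i) (b : ℕ) :
    ∀ κ : ι × Bool → ℕ, Val κ → wt κ + b = s + 1 → len κ + i = wt κ →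
      (2 * (Fintype.card ι : ℤ) + i) * nu (Fintype.card ι) (len κ + b) ≤
        (s + 1) * (nu (Fintype.card ι) (len κ + b) +
          (∑ z ∈ S.Z1, (psi (s + 1) κ z : ℤ)) * nu (Fintype.card ι) (len κ)) := by
  induction b with
  | zero =>
    intro κ hκ hn hl
    have h1 := S.cls κ hκ (by omega) (by omega)
    have h2 : ∑ z ∈ S.Z1, (psi (s + 1) κ z : ℤ) = (#{z ∈ S.Z1 | κ ≤ z} : ℕ) := by
      rw [Finset.card_filter]
      push_cast
      refine Finset.sum_congr rfl fun z _ => ?_
      unfold psi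
      have h3 : s + 1 - wt κ = 0 := by omega
      rw [h3]
      split_ifs <;> simp
    rw [h2, add_zero]
    have h4 : (2 * (Fintype.card ι : ℤ) + i) ≤
        (s + 1) * (1 + ((#{z ∈ S.Z1 | κ ≤ z} : ℕ) : ℤ)) := by exact_mod_cast h1
    have h5 := nu_nonneg (Fintype.card ι) (len κ)
    calc (2 * (Fintype.card ι : ℤ) + i) * nu (Fintype.card ι) (len κ)
        ≤ ((s + 1) * (1 + ((#{z ∈ S.Z1 | κ ≤ z} : ℕ) : ℤ))) * nu (Fintype.card ι) (len κ) :=
          mul_le_mul_of_nonneg_right h4 h5
      _ = _ := by ring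
  | succ b ih =>
    intro κ hκ hn hl
    have hcard := card_fresh hκ
    rw [sum_rec S.val1 hn]
    have h1 : ∀ x ∈ fresh κ, (2 * (Fintype.card ι : ℤ) + i) *
        nu (Fintype.card ι) (len κ + 1 + b) ≤
        (s + 1) * (nu (Fintype.card ι) (len κ + 1 + b) +
          (∑ z ∈ S.Z1, (psi (s + 1) (κ + Pi.single x 1) z : ℤ)) *
            nu (Fintype.card ι) (len κ + 1)) := by
      intro x hx
      unfold fresh at hx
      rw [mem_filter] at hx
      have h3 := len_single κ x 0 hx.2.1
      rw [Nat.zero_add] at h3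
      have h2 := ih (κ + Pi.single x 1) hx.2.2 (by rw [wt_single]; omega)
        (by rw [wt_single, h3]; omega)
      rw [h3] at h2
      exact h2
    have hle : len κ ≤ Fintype.card ι := by omega
    rcases Nat.eq_or_lt_of_le hle with h4 | h4
    · have h5 : fresh κ = ∅ := by
        rw [← Finset.card_eq_zero]
        omega
      rw [h5, Finset.sum_empty, zero_mul, nu_zero _ _ (by omega)]
      simp
    · have hK : ((fresh κ).card : ℤ) = 2 * ((Fintype.card ι : ℤ) - len κ) := by
        have : ((fresh κ).card : ℤ) + 2 * len κ = 2 * Fintype.card ι := by exact_mod_cast hcard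
        linarith
      have hK0 : (0 : ℤ) < ((fresh κ).card : ℤ) := by
        have : 0 < (fresh κ).card := by omega
        exact_mod_cast this
      have h6 := nu_succ (Fintype.card ι) (len κ) hle
      rw [← hK] at h6
      have e : len κ + (b + 1) = len κ + 1 + b := by ring
      rw [e]
      refine le_of_mul_le_mul_left ?_ hK0
      calc ((fresh κ).card : ℤ) * ((2 * (Fintype.card ι : ℤ) + i) *
            nu (Fintype.card ι) (len κ + 1 + b)) =
            ∑ _x ∈ fresh κ, (2 * (Fintype.card ι : ℤ) + i) *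
              nu (Fintype.card ι) (len κ + 1 + b) := by rw [Finset.sum_const, nsmul_eq_mul]
        _ ≤ ∑ x ∈ fresh κ, (s + 1) * (nu (Fintype.card ι) (len κ + 1 + b) +
          (∑ z ∈ S.Z1, (psi (s + 1) (κ + Pi.single x 1) z : ℤ)) *
            nu (Fintype.card ι) (len κ + 1)) := Finset.sum_le_sum h1
        _ = _ := by
          rw [← Finset.mul_sum, Finset.sum_add_distrib, Finset.sum_const, nsmul_eq_mul,
            ← Finset.sum_mul, h6]
          ring

end

theorem idn (h1 : T_CNT) (h2 : T_BAS) : T_IDN := by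
  intro ι _ s i a S κ hκ hwt hl hm
  set m := Fintype.card ι with hmdef
  have hdisj : Disjoint S.Z0 S.Z1 := by
    rw [Finset.disjoint_left]
    intro z hz0 hz1
    have e1 := S.wt0 z hz0
    have e2 := S.wt1 z hz1
    omega
  have hA := (h1 ι (s + 1) S.Z0 S.val0 S.r1 κ).2 hκ (by omega)
  have hB := (h1 ι (s + 2) (S.Z0 ∪ S.Z1) (by
    intro z hz
    rcases Finset.mem_union.1 hz with h | h
    · exact S.val0 z h
    · exact S.val1 z h) S.r2 κ).2 hκ (by omega)
  have ea : s + 1 - wt κ = a := by omega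
  have ea1 : s + 2 - wt κ = a + 1 := by omega
  rw [ea] at hA
  rw [ea1] at hB
  have hC := cls_sum S a κ hκ hwt hl
  have hnu : nu m (len κ + (a + 1)) = 2 * ((m : ℤ) - (len κ + a : ℕ)) * nu m (len κ + a) := by
    have := nu_succ m (len κ + a) (by omega)
    rw [← this]
    congr 1
  -- the values on the two layers
  have hZ0 : ∀ z ∈ S.Z0, (psi (s + 2) κ z : ℤ) =
      s * (psi (s + 1) κ z : ℤ) - ((ex κ z * psi (s + 1) κ z : ℕ) : ℤ) := by
    intro z hz
    unfold psi
    split_ifs with h
    · obtain ⟨a1, a2, a3⟩ := (h2 _ κ z).1 h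
      have e1 := S.wt0 z hz
      rw [ea, ea1, Nat.descFactorial_succ]
      by_cases hb : a ≤ len z - len κ
      · have e3 : ((len z - len κ - a : ℕ) : ℤ) = s - ex κ z := by
          omega
        push_cast
        rw [e3]
        ring
      · have : (len z - len κ).descFactorial a = 0 := by
          rw [Nat.descFactorial_eq_zero_iff_lt]
          omega
        rw [this]
        simp
    · simp
  have hZ1 : ∀ z ∈ S.Z1, (psi (s + 2) κ z : ℤ) =
      (s + 1) * (psi (s + 1) κ z : ℤ) - ((ex κ z * psi (s + 1) κ z : ℕ) : ℤ) := by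
    intro z hz
    unfold psi
    split_ifs with h
    · obtain ⟨a1, a2, a3⟩ := (h2 _ κ z).1 h
      have e1 := S.wt1 z hz
      rw [ea, ea1, Nat.descFactorial_succ]
      by_cases hb : a ≤ len z - len κ
      · have e3 : ((len z - len κ - a : ℕ) : ℤ) = s + 1 - ex κ z := by
          omega
        push_cast
        rw [e3]
        ring
      · have : (len z - len κ).descFactorial a = 0 := by
          rw [Nat.descFactorial_eq_zero_iff_lt]
          omega
        rw [this]
        simp
    · simp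
  rw [Finset.sum_union hdisj, Finset.sum_congr rfl hZ0, Finset.sum_congr rfl hZ1,
    Finset.sum_sub_distrib, Finset.sum_sub_distrib, ← Finset.mul_sum, ← Finset.mul_sum, hnu] at hB
  rw [Finset.sum_union hdisj]
  set D0 := ∑ z ∈ S.Z0, ((ex κ z * psi (s + 1) κ z : ℕ) : ℤ)
  set D1 := ∑ z ∈ S.Z1, ((ex κ z * psi (s + 1) κ z : ℕ) : ℤ)
  set P0 := ∑ z ∈ S.Z0, (psi (s + 1) κ z : ℤ)
  set P1 := ∑ z ∈ S.Z1, (psi (s + 1) κ z : ℤ)
  set N := nu m (len κ)
  set μ := nu m (len κ + a)
  have e5 : (s : ℤ) = a + len κ + i - 1 := by omega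
  have key : (D0 + D1) * N = s * (P0 * N) + (s + 1) * (P1 * N) -
      2 * ((m : ℤ) - (len κ + a : ℕ)) * μ := by
    have : (s * P0 - D0 + ((s + 1) * P1 - D1)) * N = 2 * ((m : ℤ) - (len κ + a : ℕ)) * μ := hB
    linarith
  rw [key, hA]
  have hC' : (2 * (m : ℤ) + i) * μ ≤ (s + 1) * (μ + P1 * N) := hC
  have e6 : ((a + s + len κ : ℕ) : ℤ) * μ = s * μ + ((2 * (m : ℤ) + i) * μ - (s + 1) * μ) -
      2 * ((m : ℤ) - (len κ + a : ℕ)) * μ := by
    push_cast
    rw [e5]
    ring
  rw [e6]
  linarith

end Pool.Agent.H36.GW.IDN
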