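import Pool.Agent.H71.GW.Targets

/-!
Module LIN (MP_684e05_nt): the functionals are additive in `Ψ`.
-/

set_option autoImplicit false

open Finset
open scoped Classical

namespace Pool.Agent.H36.GW.LIN

open Pool.Agent.H71.GW

section

variable {J : Type} [Fintype J] {Z : Type} (A : Finset Z)

theorem mvs_sum (κ : J → ℕ) (EN ER : ℕ) (FN FR : Z → ℕ → (J → ℕ) → ℤ) :
    mvs κ EN ER (fun e κ' => ∑ z ∈ A, FN z e κ') (fun e κ' => ∑ z ∈ A, FR z e κ') =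
      ∑ z ∈ A, mvs κ EN ER (FN z) (FR z) := by
  unfold mvs
  rw [Finset.sum_comm]
  refine Finset.sum_congr rfl fun j _ => ?_
  split_ifs with h
  · rw [Finset.sum_comm]
  · rw [Finset.sum_comm]

theorem mvs_sum' (κ : J → ℕ) (EN ER : ℕ) (GN GR : ℕ → (J → ℕ) → ℤ)
    (FN FR : Z → ℕ → (J → ℕ) → ℤ) (hN : ∀ e κ', GN e κ' = ∑ z ∈ A, FN z e κ')
    (hR : ∀ e κ', GR e κ' = ∑ z ∈ A, FR z e κ') :
    mvs κ EN ER GN GR = ∑ z ∈ A, mvs κ EN ER (FN z) (FR z) := by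
  rw [← mvs_sum]
  congr 1
  · funext e κ'; exact hN e κ'
  · funext e κ'; exact hR e κ'

theorem ite_sum (p : Prop) [Decidable p] (x y : ℤ) (f g : Z → ℤ) (h1 : p → x = ∑ z ∈ A, f z)
    (h2 : ¬ p → y = ∑ z ∈ A, g z) :
    (if p then x else y) = ∑ z ∈ A, (if p then f z else g z) := by
  split_ifs with h
  · exact h1 h
  · exact h2 h

variable (Ψ : Z → (J → ℕ) → ℤ)

theorem low_sum (s n E0 : ℕ) (U : ℕ → List ℕ → (J → ℕ) → ℤ) (V : Z → ℕ → List ℕ → (J → ℕ) → ℤ)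
    (hU : ∀ w g κ, U w g κ = ∑ z ∈ A, V z w g κ) (w : ℕ) (g : List ℕ) (κ : J → ℕ) :
    Low s n E0 (fun κ' => ∑ z ∈ A, Ψ z κ') U w g κ = ∑ z ∈ A, Low s n E0 (Ψ z) (V z) w g κ := by
  unfold Low
  rw [Finset.sum_sub_distrib, Finset.mul_sum]
  congr 1
  refine mvs_sum' A _ _ _ _ _ _ _ ?_ ?_
  · intro e κ'
    exact ite_sum A _ _ _ _ _ (fun _ => hU _ _ _) (fun _ => Finset.mul_sum _ _ _)
  · intro e κ'
    exact ite_sum A _ _ _ _ _ (fun _ => hU _ _ _) (fun _ => Finset.mul_sum _ _ _)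

theorem up_sum (s n EW E0 : ℕ) : ∀ (k w : ℕ) (g : List ℕ) (κ : J → ℕ),
    Up s n EW E0 (fun κ' => ∑ z ∈ A, Ψ z κ') k w g κ = ∑ z ∈ A, Up s n EW E0 (Ψ z) k w g κ := by
  intro k
  induction k with
  | zero =>
    intro w g κ
    simp only [Up]
    rw [Finset.mul_sum]
  | succ k ih =>
    intro w g κ
    simp only [Up]
    rw [Finset.sum_sub_distrib, Finset.mul_sum]
    congr 1
    refine mvs_sum' A _ _ _ _ _ _ _ ?_ ?_
    · intro e κ'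
      exact ite_sum A _ _ _ _ _ (fun _ => low_sum A Ψ _ _ _ _ _ ih _ _ _)
        (fun _ => Finset.sum_const_zero.symm)
    · intro e κ'
      exact ite_sum A _ _ _ _ _ (fun _ => low_sum A Ψ _ _ _ _ _ ih _ _ _)
        (fun _ => Finset.sum_const_zero.symm)

theorem hs_sum (s E0 : ℕ) (U : ℕ → List ℕ → (J → ℕ) → ℤ) (V : Z → ℕ → List ℕ → (J → ℕ) → ℤ)
    (hU : ∀ w g κ, U w g κ = ∑ z ∈ A, V z w g κ) (w : ℕ) (g : List ℕ) (κ : J → ℕ) :
    HS s E0 (fun κ' => ∑ z ∈ A, Ψ z κ') U w g κ = ∑ z ∈ A, HS s E0 (Ψ z) (V z) w g κ := by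
  unfold HS
  rw [Finset.sum_add_distrib, Finset.mul_sum]
  congr 1
  exact mvs_sum' A _ _ _ _ _ _ _ (fun e κ' => hU _ _ _) (fun e κ' => hU _ _ _)

theorem hf_sum (s EW E0 : ℕ) : ∀ (k w : ℕ) (g : List ℕ) (κ : J → ℕ),
    HF s EW E0 (fun κ' => ∑ z ∈ A, Ψ z κ') k w g κ = ∑ z ∈ A, HF s EW E0 (Ψ z) k w g κ := by
  intro k
  induction k with
  | zero =>
    intro w g κ
    simp only [HF]
    rw [Finset.sum_const_zero]
  | succ k ih =>
    intro w g κ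
    simp only [HF]
    refine mvs_sum' A _ _ _ _ _ _ _ ?_ ?_
    · intro e κ'
      exact ite_sum A _ _ _ _ _ (fun _ => hs_sum A Ψ _ _ _ _ ih _ _ _)
        (fun _ => Finset.sum_const_zero.symm)
    · intro e κ'
      exact ite_sum A _ _ _ _ _ (fun _ => hs_sum A Ψ _ _ _ _ ih _ _ _)
        (fun _ => Finset.sum_const_zero.symm)

theorem gg_sum (s EW E0 k e : ℕ) (g : List ℕ) (κ : J → ℕ) :
    GG s EW E0 k (fun κ' => ∑ z ∈ A, Ψ z κ') e g κ = ∑ z ∈ A, GG s EW E0 k (Ψ z) e g κ := by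
  unfold GG
  rw [Finset.sum_sub_distrib]
  congr 1
  · exact ite_sum A _ _ _ _ _
      (fun _ => low_sum A Ψ _ _ _ _ _ (up_sum A Ψ _ _ _ _ 0) _ _ _)
      (fun _ => Finset.sum_const_zero.symm)
  · exact hf_sum A Ψ _ _ _ _ _ _ _

end

theorem lin : T_LIN := by
  intro J _ Z Ψ κ s a EW E0 k
  refine ⟨?_, ?_⟩
  · unfold UP
    refine mvs_sum' Z _ _ _ _ _ _ _ ?_ ?_
    · intro e κ'
      exact ite_sum Z _ _ _ _ _ (fun _ => up_sum Z Ψ _ _ _ _ _ _ _ _)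
        (fun _ => Finset.mul_sum _ _ _)
    · intro e κ'
      exact ite_sum Z _ _ _ _ _ (fun _ => up_sum Z Ψ _ _ _ _ _ _ _ _)
        (fun _ => Finset.mul_sum _ _ _)
  · unfold GAIN
    exact mvs_sum' Z _ _ _ _ _ _ _ (fun e κ' => gg_sum Z Ψ _ _ _ _ _ _ _)
      (fun e κ' => gg_sum Z Ψ _ _ _ _ _ _ _)

end Pool.Agent.H36.GW.LIN
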