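import Pool.Agent.H71.GW.Targets

/-!
Module PSI (MP_684e05_nt): completions to norm `s + 1` and `s + 2`.
-/

set_option autoImplicit false

open Finset
open scoped Classical

namespace Pool.Agent.H36.GW.PSI

open Pool.Agent.H71.GW

theorem psi (h1 : T_BAS) : T_PSI := by
  refine ⟨?_, ?_⟩
  · intro J _ κ u n t hu hκ ht
    unfold Pool.Agent.H71.GW.psi
    split_ifs with h
    · obtain ⟨a1, a2, a3⟩ := (h1 J κ u).1 h
      rw [Nat.descFactorial_eq_zero_iff_lt]
      omega
    · rfl
  · intro J _ κ u s hu hκ
    unfold Pool.Agent.H71.GW.psi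
    split_ifs with h
    · obtain ⟨a1, a2, a3⟩ := (h1 J κ u).1 h
      have e1 : s + 2 - wt κ = (s + 1 - wt κ) + 1 := by omega
      rw [e1, Nat.descFactorial_succ]
      by_cases hb : s + 1 - wt κ ≤ len u - len κ
      · congr 1
        omega
      · have : (len u - len κ).descFactorial (s + 1 - wt κ) = 0 := by
          rw [Nat.descFactorial_eq_zero_iff_lt]
          omega
        rw [this]
        simp
    · simp

end Pool.Agent.H36.GW.PSI
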