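import Pool.Agent.H55.GW.Targets1

/-!
# Module GLU: a region can be replaced by a region of the same type (MP_97b7aa_co)
-/

set_option autoImplicit false

namespace Pool.Agent.H36.GW

open Pool.Agent.H55.GW Pool.Agent.H55.GW.Frame

/-- the mate as a number -/
def mt (m : ℕ → Vx) (v : ℕ) : ℕ := Sum.elim (fun _ => 0) id (m v)

theorem mt_eq {m : ℕ → Vx} {v u : ℕ} (h : m v = Sum.inr u) : mt m v = u := by
  unfold mt
  rw [h]
  rfl

/-- transfer of perfect matchings between two frames which agree outside a region -/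
theorem swap_pm (F F' : Frame) (R₀ R₁ : Finset ℕ) {k : ℕ} (b : Fin k → ℕ)
    (hE : F'.E = F.E) (hatt : ∀ e v, F'.att e v ↔ F.att e v) (hco : ∀ e, F'.co e ↔ F.co e)
    (hout : ∀ v, (v ∈ F'.V ∧ v ∉ R₁) ↔ (v ∈ F.V ∧ v ∉ R₀))
    (hP : ∀ v, v ∈ F.V → v ∉ R₀ → (F'.isP v ↔ F.isP v))
    (hadj : ∀ u v, u ∈ F.V → u ∉ R₀ → v ∈ F.V → v ∉ R₀ → (F'.adj u v ↔ F.adj u v))
    (hsub : R₀ ⊆ F.V) (hl : ∀ e v, F.att e v → v ∉ R₀)
    (hcov : ∀ v ∈ R₀, ∀ u, (F.adj u v ∨ F.adj v u) → u ∈ R₀ ∨ ∃ i, u = b i)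
    (hC : ∀ J : Set (Fin k), Cov F R₀ (b '' J) → Cov F' R₁ (b '' J))
    (hb : ∀ i, b i ∈ F.V ∧ b i ∉ R₀)
    (m : ℕ → Vx) (hm : F.IsPM m) : ∃ m', F'.IsPM m' ∧ F'.base m' = F.base m := by
  classical
  set J : Set (Fin k) := {i | ∃ u ∈ R₀, m (b i) = Sum.inr u} with hJ
  have hmR : ∀ v ∈ R₀, ∃ u, m v = Sum.inr u ∧ m u = Sum.inr v ∧ (F.adj v u ∨ F.adj u v) := by
    intro v hv
    rcases hm.cases (hsub hv) with ⟨e, he, h1⟩ | ⟨u, hu, h1, h2, h3, h4⟩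
    · exact absurd hv (hl e v h1)
    · exact ⟨u, hu, h2, h4⟩
  have hcv : Cov F R₀ (b '' J) := by
    refine ⟨mt m, ?_⟩
    rintro v (hv | ⟨i, ⟨u, hu, hi⟩, rfl⟩)
    · obtain ⟨u, hu, hu', h4⟩ := hmR v hv
      rw [mt_eq hu, mt_eq hu']
      refine ⟨?_, rfl, h4, Or.inl hv⟩
      rcases hcov v hv u h4.symm with h5 | ⟨i, rfl⟩
      · exact Or.inl h5
      · exact Or.inr ⟨i, ⟨v, hv, hu'⟩, rfl⟩
    · have h1 := (hm _ (hb i).1).2 u hi
      rw [mt_eq hi, mt_eq h1.2]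
      exact ⟨Or.inl hu, rfl, h1.1, Or.inr hu⟩
  obtain ⟨μ, hμ⟩ := hC J hcv
  set m' : ℕ → Vx := fun v => if v ∈ R₁ ∨ v ∈ b '' J then Sum.inr (μ v) else m v with hm'
  have e1 : ∀ v, (v ∈ R₁ ∨ v ∈ b '' J) → m' v = Sum.inr (μ v) := fun v hv => if_pos hv
  have e2 : ∀ v, ¬ (v ∈ R₁ ∨ v ∈ b '' J) → m' v = m v := fun v hv => if_neg hv
  refine ⟨m', ?_, ?_⟩
  · intro v hv
    by_cases hc : v ∈ R₁ ∨ v ∈ b '' J
    · rw [e1 v hc]
      refine ⟨fun e he => by simp at he, fun u hu => ?_⟩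
      have hu' : μ v = u := Sum.inr.inj hu
      obtain ⟨h1, h2, h3, h4⟩ := hμ v hc
      rw [hu'] at h1 h2 h3
      rw [e1 u h1, h2]
      exact ⟨h3, rfl⟩
    · rw [e2 v hc]
      push Not at hc
      obtain ⟨hv1, hv2⟩ := (hout v).1 ⟨hv, hc.1⟩
      refine ⟨fun e he => (hatt e v).2 ((hm v hv1).1 e he), fun u hu => ?_⟩
      obtain ⟨h1, h2⟩ := (hm v hv1).2 u hu
      have hu1 : u ∈ F.V := by
        rcases h1 with h1 | h1
        · exact adj_right h1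
        · exact adj_left h1
      have hu2 : u ∉ R₀ := by
        intro h3
        rcases hcov u h3 v h1 with h5 | ⟨i, rfl⟩
        · exact hv2 h5
        · exact hc.2 ⟨i, ⟨u, h3, hu⟩, rfl⟩
      refine ⟨?_, ?_⟩
      · rcases h1 with h1 | h1
        · exact Or.inl ((hadj v u hv1 hv2 hu1 hu2).2 h1)
        · exact Or.inr ((hadj u v hu1 hu2 hv1 hv2).2 h1)
      · rw [e2 u]
        · exact h2
        · rintro (h3 | ⟨i, ⟨w, hw, hi⟩, rfl⟩)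
          · exact ((hout u).2 ⟨hu1, hu2⟩).2 h3
          · rw [h2] at hi
            exact hv2 (Sum.inr.inj hi ▸ hw)
  · have key : ∀ e v, F.att e v → (m' v ≠ Sum.inl e ↔ m v ≠ Sum.inl e) := by
      intro e v h
      by_cases hc : v ∈ R₁ ∨ v ∈ b '' J
      · rw [e1 v hc]
        have h1 : v ∉ R₁ := ((hout v).2 ⟨att_V h, hl e v h⟩).2
        rcases hc with hc | ⟨i, ⟨u, hu, hi⟩, rfl⟩
        · exact absurd hc h1
        · rw [hi]
          simp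
      · rw [e2 v hc]
    ext e
    by_cases hEe : e ∈ F.E
    · by_cases ha : ∃ v, F.att e v
      · obtain ⟨v, hv⟩ := ha
        rw [mem_base_iff (F := F) hv, mem_base_iff (F := F') ((hatt e v).2 hv), key e v hv,
          hP v (att_V hv) (hl e v hv)]
      · push Not at ha
        have ha' : ∀ v, ¬ F'.att e v := fun v hv => ha v ((hatt e v).1 hv)
        rw [mem_base_iff_of_free hEe ha, mem_base_iff_of_free (hE ▸ hEe) ha', hco]
    · constructor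
      · exact fun h => absurd (by simpa [hE] using h.1) hEe
      · exact fun h => absurd h.1 hEe

/-! ### the renaming -/

section

variable (F F₂ : Frame) (m m₂ : ℕ → Vx) (R₀ R₂ : Finset ℕ) {k : ℕ} (b b₂ : Fin k → ℕ) (N : ℕ)

open Classical in
/-- the renaming of the second region with its boundary -/
noncomputable def sg (w : ℕ) : ℕ :=
  if w ∈ R₂ then w + N else if h : ∃ i, w = b₂ i then b h.choose else 0

/-- the hypotheses -/
structure Ctx : Prop where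
  hN : ∀ v ∈ F.V, v < N
  r : Region F m R₀ b
  r₂ : Region F₂ m₂ R₂ b₂
  hP : ∀ i, F.isP (b i) ↔ F₂.isP (b₂ i)
  pm : F.IsPM m
  pm₂ : F₂.IsPM m₂

end

variable {F F₂ : Frame} {m m₂ : ℕ → Vx} {R₀ R₂ : Finset ℕ} {k : ℕ} {b b₂ : Fin k → ℕ} {N : ℕ}

theorem sg_mem {w : ℕ} (hw : w ∈ R₂) : sg R₂ b b₂ N w = w + N := by
  unfold sg
  rw [if_pos hw]

theorem sg_bd (h : Ctx F F₂ m m₂ R₀ R₂ b b₂ N) (i : Fin k) : sg R₂ b b₂ N (b₂ i) = b i := by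
  unfold sg
  rw [if_neg (h.r₂.bmem i).2]
  have hi : ∃ j, b₂ i = b₂ j := ⟨i, rfl⟩
  rw [dif_pos hi]
  congr 1
  exact (h.r₂.binj hi.choose_spec).symm

/-- region with boundary -/
def AA (R₂ : Finset ℕ) (b₂ : Fin k → ℕ) : Set ℕ := {w | w ∈ R₂ ∨ ∃ i, w = b₂ i}

theorem bN (h : Ctx F F₂ m m₂ R₀ R₂ b b₂ N) (i : Fin k) : b i < N := h.hN _ (h.r.bmem i).1

theorem sg_inj (h : Ctx F F₂ m m₂ R₀ R₂ b b₂ N) : Set.InjOn (sg R₂ b b₂ N) (AA R₂ b₂) := by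
  rintro w (hw | ⟨i, rfl⟩) w' (hw' | ⟨j, rfl⟩) he
  · rw [sg_mem hw, sg_mem hw'] at he
    omega
  · rw [sg_mem hw, sg_bd h] at he
    have := bN h j
    omega
  · rw [sg_mem hw', sg_bd h] at he
    have := bN h i
    omega
  · rw [sg_bd h, sg_bd h] at he
    rw [h.r.binj he]

/-- arcs at the region have both ends in the region with boundary -/
theorem AA_of_adj (h : Ctx F F₂ m m₂ R₀ R₂ b b₂ N) {u v : ℕ} (h1 : u ∈ R₂ ∨ v ∈ R₂)
    (h2 : F₂.adj u v) : u ∈ AA R₂ b₂ ∧ v ∈ AA R₂ b₂ := by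
  rcases h1 with h1 | h1
  · exact ⟨Or.inl h1, h.r₂.bcov u h1 v (Or.inr h2)⟩
  · exact ⟨h.r₂.bcov v h1 u (Or.inl h2), Or.inl h1⟩

/-- the glued frame -/
noncomputable def glue (h : Ctx F F₂ m m₂ R₀ R₂ b b₂ N) : Frame where
  V := (F.V \ R₀) ∪ R₂.image (fun w => w + N)
  E := F.E
  isP := fun v => (v < N ∧ F.isP v) ∨ (N ≤ v ∧ F₂.isP (v - N))
  adj := fun p q => (F.adj p q ∧ p ∉ R₀ ∧ q ∉ R₀) ∨
    ∃ u v, (u ∈ R₂ ∨ v ∈ R₂) ∧ F₂.adj u v ∧ sg R₂ b b₂ N u = p ∧ sg R₂ b b₂ N v = q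
  att := F.att
  co := F.co
  adj_wf := by
    rintro p q (⟨h1, h2, h3⟩ | ⟨u, v, h1, h2, rfl, rfl⟩)
    · have hp := h.hN p (adj_left h1)
      have hq := h.hN q (adj_right h1)
      refine ⟨?_, ?_, Or.inl ⟨hp, adj_isP h1⟩, ?_⟩
      · simp only [Finset.mem_union, Finset.mem_sdiff]
        exact Or.inl ⟨adj_left h1, h2⟩
      · simp only [Finset.mem_union, Finset.mem_sdiff]
        exact Or.inl ⟨adj_right h1, h3⟩
      · rintro (⟨-, h4⟩ | ⟨h4, -⟩)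
        · exact adj_notP h1 h4
        · omega
    · have key : ∀ w ∈ AA R₂ b₂, sg R₂ b b₂ N w ∈ (F.V \ R₀) ∪ R₂.image (fun w => w + N) ∧
          ((sg R₂ b b₂ N w < N ∧ F.isP (sg R₂ b b₂ N w)) ∨
            (N ≤ sg R₂ b b₂ N w ∧ F₂.isP (sg R₂ b b₂ N w - N)) ↔ F₂.isP w) := by
        rintro w (hw | ⟨i, rfl⟩)
        · rw [sg_mem hw]
          refine ⟨?_, ?_⟩
          · simp only [Finset.mem_union, Finset.mem_image]
            exact Or.inr ⟨w, hw, rfl⟩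
          · rw [Nat.add_sub_cancel]
            constructor
            · rintro (⟨h3, -⟩ | ⟨-, h3⟩)
              · omega
              · exact h3
            · intro h3
              exact Or.inr ⟨by omega, h3⟩
        · rw [sg_bd h]
          refine ⟨?_, ?_⟩
          · simp only [Finset.mem_union, Finset.mem_sdiff]
            exact Or.inl (h.r.bmem i)
          · have := bN h i
            rw [← h.hP i]
            constructor
            · rintro (⟨-, h3⟩ | ⟨h3, -⟩)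
              · exact h3
              · omega
            · intro h3
              exact Or.inl ⟨this, h3⟩
      obtain ⟨hu, hv⟩ := AA_of_adj h h1 h2
      exact ⟨(key u hu).1, (key v hv).1, (key u hu).2.2 (adj_isP h2),
        fun h3 => adj_notP h2 ((key v hv).2.1 h3)⟩
  att_wf := by
    intro e v h1
    refine ⟨att_E h1, ?_⟩
    simp only [Finset.mem_union, Finset.mem_sdiff]
    exact Or.inl ⟨att_V h1, h.r.leafless e v h1⟩
  att_uniq := F.att_uniq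


/-- the new region -/
def R1 (R₂ : Finset ℕ) (N : ℕ) : Finset ℕ := R₂.image (fun w => w + N)

theorem sg_mem_R1 (h : Ctx F F₂ m m₂ R₀ R₂ b b₂ N) {w : ℕ} (hw : w ∈ AA R₂ b₂) :
    sg R₂ b b₂ N w ∈ R1 R₂ N ↔ w ∈ R₂ := by
  unfold R1
  rw [Finset.mem_image]
  rcases hw with hw | ⟨i, rfl⟩
  · rw [sg_mem hw]
    exact ⟨fun _ => hw, fun _ => ⟨w, hw, rfl⟩⟩
  · rw [sg_bd h]
    constructor
    · rintro ⟨x, -, hx⟩
      have := bN h i
      omega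
    · intro h1
      exact absurd h1 (h.r₂.bmem i).2

theorem glue_out (h : Ctx F F₂ m m₂ R₀ R₂ b b₂ N) (v : ℕ) :
    (v ∈ (glue h).V ∧ v ∉ R1 R₂ N) ↔ (v ∈ F.V ∧ v ∉ R₀) := by
  unfold glue R1
  simp only [Finset.mem_union, Finset.mem_sdiff, Finset.mem_image]
  constructor
  · rintro ⟨h1 | h1, h2⟩
    · exact h1
    · exact absurd h1 h2
  · intro h1
    refine ⟨Or.inl h1, ?_⟩
    rintro ⟨w, -, hw⟩
    have := h.hN v h1.1
    omega

theorem glue_isP (h : Ctx F F₂ m m₂ R₀ R₂ b b₂ N) {v : ℕ} (hv : v ∈ F.V) :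
    (glue h).isP v ↔ F.isP v := by
  have := h.hN v hv
  unfold glue
  constructor
  · rintro (⟨-, h1⟩ | ⟨h1, -⟩)
    · exact h1
    · omega
  · exact fun h1 => Or.inl ⟨this, h1⟩

theorem sg_not_mem (h : Ctx F F₂ m m₂ R₀ R₂ b b₂ N) {w : ℕ} (hw : w ∈ R₂) :
    sg R₂ b b₂ N w ∉ F.V := by
  intro h1
  have := h.hN _ h1
  rw [sg_mem hw] at this
  omega

theorem glue_adj_out (h : Ctx F F₂ m m₂ R₀ R₂ b b₂ N) {u v : ℕ} (hu : u ∈ F.V) (hu' : u ∉ R₀)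
    (hv : v ∈ F.V) (hv' : v ∉ R₀) : (glue h).adj u v ↔ F.adj u v := by
  constructor
  · rintro (⟨h1, -, -⟩ | ⟨u', v', h1, h2, rfl, rfl⟩)
    · exact h1
    · rcases h1 with h1 | h1
      · exact absurd hu (sg_not_mem h h1)
      · exact absurd hv (sg_not_mem h h1)
  · intro h1
    exact Or.inl ⟨h1, hu', hv'⟩

theorem glue_adj_sg (h : Ctx F F₂ m m₂ R₀ R₂ b b₂ N) {u v : ℕ} (hu : u ∈ AA R₂ b₂)
    (hv : v ∈ AA R₂ b₂) (huv : u ∈ R₂ ∨ v ∈ R₂) :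
    (glue h).adj (sg R₂ b b₂ N u) (sg R₂ b b₂ N v) ↔ F₂.adj u v := by
  constructor
  · rintro (⟨h1, -, -⟩ | ⟨u', v', h1, h2, h3, h4⟩)
    · rcases huv with h2 | h2
      · exact absurd (adj_left h1) (sg_not_mem h h2)
      · exact absurd (adj_right h1) (sg_not_mem h h2)
    · obtain ⟨h5, h6⟩ := AA_of_adj h h1 h2
      rw [sg_inj h h5 hu h3, sg_inj h h6 hv h4] at h2
      exact h2
  · intro h1
    exact Or.inr ⟨u, v, huv, h1, rfl, rfl⟩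

theorem glue_cov_bd (h : Ctx F F₂ m m₂ R₀ R₂ b b₂ N) : ∀ v ∈ R1 R₂ N, ∀ u,
    ((glue h).adj u v ∨ (glue h).adj v u) → u ∈ R1 R₂ N ∨ ∃ i, u = b i := by
  have key : ∀ w ∈ AA R₂ b₂, sg R₂ b b₂ N w ∈ R1 R₂ N ∨ ∃ i, sg R₂ b b₂ N w = b i := by
    rintro w (hw | ⟨i, rfl⟩)
    · exact Or.inl ((sg_mem_R1 h (Or.inl hw)).2 hw)
    · exact Or.inr ⟨i, sg_bd h i⟩
  intro v hv u hu
  have hv' : v ∉ F.V := by
    intro h1
    unfold R1 at hv
    rw [Finset.mem_image] at hv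
    obtain ⟨w, -, hw⟩ := hv
    have := h.hN v h1
    omega
  rcases hu with (⟨h1, -, -⟩ | ⟨u', v', h1, h2, rfl, rfl⟩) | (⟨h1, -, -⟩ | ⟨u', v', h1, h2, rfl, rfl⟩)
  · exact absurd (adj_right h1) hv'
  · exact key u' (AA_of_adj h h1 h2).1
  · exact absurd (adj_left h1) hv'
  · exact key v' (AA_of_adj h h1 h2).2

/-- the two regions have the same coverable sets of boundary vertices -/
theorem cov_iff (h : Ctx F F₂ m m₂ R₀ R₂ b b₂ N) (J : Set (Fin k)) :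
    Cov (glue h) (R1 R₂ N) (b '' J) ↔ Cov F₂ R₂ (b₂ '' J) := by
  classical
  set σ := sg R₂ b b₂ N with hσ
  set τ : ℕ → ℕ := Function.invFunOn σ (AA R₂ b₂) with hτ
  have hτσ : ∀ w ∈ AA R₂ b₂, τ (σ w) = w := fun w hw => (sg_inj h).leftInvOn_invFunOn hw
  have hAA : ∀ w, (w ∈ R₂ ∨ w ∈ b₂ '' J) → w ∈ AA R₂ b₂ := by
    rintro w (hw | ⟨i, -, rfl⟩)
    · exact Or.inl hw
    · exact Or.inr ⟨i, rfl⟩
  have hσm : ∀ w, (w ∈ R₂ ∨ w ∈ b₂ '' J) → (σ w ∈ R1 R₂ N ∨ σ w ∈ b '' J) := by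
    rintro w (hw | ⟨i, hi, rfl⟩)
    · exact Or.inl ((sg_mem_R1 h (Or.inl hw)).2 hw)
    · exact Or.inr ⟨i, hi, (sg_bd h i).symm⟩
  have hσs : ∀ x, (x ∈ R1 R₂ N ∨ x ∈ b '' J) → ∃ w, (w ∈ R₂ ∨ w ∈ b₂ '' J) ∧ σ w = x := by
    rintro x (hx | ⟨i, hi, rfl⟩)
    · unfold R1 at hx
      rw [Finset.mem_image] at hx
      obtain ⟨w, hw, rfl⟩ := hx
      exact ⟨w, Or.inl hw, sg_mem hw⟩
    · exact ⟨b₂ i, Or.inr ⟨i, hi, rfl⟩, sg_bd h i⟩
  constructor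
  · rintro ⟨μ, hμ⟩
    refine ⟨fun w => τ (μ (σ w)), fun w hw => ?_⟩
    obtain ⟨h1, h2, h3, h4⟩ := hμ (σ w) (hσm w hw)
    obtain ⟨w', hw', he⟩ := hσs _ h1
    rw [← he] at h2 h3 h4
    have e1 : τ (μ (σ w)) = w' := by rw [← he, hτσ w' (hAA w' hw')]
    simp only [e1]
    have e2 : τ (μ (σ w')) = w := by rw [h2, hτσ w (hAA w hw)]
    rw [e2]
    rw [sg_mem_R1 h (hAA w hw), sg_mem_R1 h (hAA w' hw')] at h4
    refine ⟨hw', rfl, ?_, h4⟩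
    rw [glue_adj_sg h (hAA w hw) (hAA w' hw') h4,
      glue_adj_sg h (hAA w' hw') (hAA w hw) h4.symm] at h3
    exact h3
  · rintro ⟨μ, hμ⟩
    refine ⟨fun x => σ (μ (τ x)), fun x hx => ?_⟩
    obtain ⟨w, hw, rfl⟩ := hσs x hx
    obtain ⟨h1, h2, h3, h4⟩ := hμ w hw
    simp only [hτσ w (hAA w hw), hτσ (μ w) (hAA _ h1), h2]
    refine ⟨hσm _ h1, trivial, ?_, ?_⟩
    · rw [glue_adj_sg h (hAA w hw) (hAA _ h1) h4, glue_adj_sg h (hAA _ h1) (hAA w hw) h4.symm]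
      exact h3
    · rw [sg_mem_R1 h (hAA w hw), sg_mem_R1 h (hAA _ h1)]
      exact h4

/-- the matroid of the glued frame -/
theorem glue_rep (h : Ctx F F₂ m m₂ R₀ R₂ b b₂ N) (M : Matroid ℕ) (hM : F.Rep M)
    (hC : ∀ J : Set (Fin k), Cov F R₀ (b '' J) ↔ Cov F₂ R₂ (b₂ '' J)) : (glue h).Rep M := by
  refine ⟨hM.1, fun B => (hM.2 B).trans ?_⟩
  constructor
  · rintro ⟨m1, h1, rfl⟩
    exact swap_pm F (glue h) R₀ (R1 R₂ N) b rfl (fun _ _ => Iff.rfl) (fun _ => Iff.rfl)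
      (glue_out h) (fun v hv _ => glue_isP h hv)
      (fun u v hu hu' hv hv' => glue_adj_out h hu hu' hv hv') h.r.sub h.r.leafless h.r.bcov
      (fun J hJ => (cov_iff h J).2 ((hC J).1 hJ)) h.r.bmem m1 h1
  · rintro ⟨m1, h1, rfl⟩
    refine swap_pm (glue h) F (R1 R₂ N) R₀ b rfl (fun _ _ => Iff.rfl) (fun _ => Iff.rfl)
      (fun v => (glue_out h v).symm) (fun v hv hv' => (glue_isP h ((glue_out h v).1 ⟨hv, hv'⟩).1).symm)
      (fun u v hu hu' hv hv' => ?_) ?_ ?_ (glue_cov_bd h)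
      (fun J hJ => (hC J).2 ((cov_iff h J).1 hJ)) (fun i => (glue_out h _).2 (h.r.bmem i)) m1 h1
    · obtain ⟨a1, a2⟩ := (glue_out h u).1 ⟨hu, hu'⟩
      obtain ⟨a3, a4⟩ := (glue_out h v).1 ⟨hv, hv'⟩
      exact (glue_adj_out h a1 a2 a3 a4).symm
    · intro v hv
      exact Finset.mem_union_right _ hv
    · intro e v hev
      exact ((glue_out h v).2 ⟨att_V (F := F) hev, h.r.leafless e v hev⟩).2

/-! ### the matching -/

/-- the matching of the glued frame -/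
def gm (m m₂ : ℕ → Vx) (N v : ℕ) : Vx :=
  if v < N then m v else Sum.elim Sum.inl (fun u => Sum.inr (u + N)) (m₂ (v - N))

theorem gm_old (h : Ctx F F₂ m m₂ R₀ R₂ b b₂ N) {v : ℕ} (hv : v ∈ F.V) : gm m m₂ N v = m v :=
  if_pos (h.hN v hv)

theorem gm_new (h : Ctx F F₂ m m₂ R₀ R₂ b b₂ N) {w : ℕ} (hw : w ∈ R₂) :
    ∃ u ∈ R₂, m₂ w = Sum.inr u ∧ gm m m₂ N (sg R₂ b b₂ N w) = Sum.inr (sg R₂ b b₂ N u) := by
  obtain ⟨u, hu, hu'⟩ := h.r₂.closed w hw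
  refine ⟨u, hu, hu', ?_⟩
  rw [sg_mem hw, sg_mem hu]
  unfold gm
  rw [if_neg (by omega), Nat.add_sub_cancel, hu']
  rfl

/-- outer vertices have outer mates -/
theorem mate_out (h : Ctx F F₂ m m₂ R₀ R₂ b b₂ N) {u v : ℕ} (hv : v ∈ F.V) (hv' : v ∉ R₀)
    (hu : m v = Sum.inr u) : u ∈ F.V ∧ u ∉ R₀ ∧ m u = Sum.inr v := by
  obtain ⟨h1, h2⟩ := (h.pm v hv).2 u hu
  refine ⟨?_, ?_, h2⟩
  · rcases h1 with h1 | h1
    · exact adj_right h1
    · exact adj_left h1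
  · intro h3
    obtain ⟨w, hw, hw'⟩ := h.r.closed u h3
    rw [h2] at hw'
    exact hv' (Sum.inr.inj hw' ▸ hw)

theorem glue_V (h : Ctx F F₂ m m₂ R₀ R₂ b b₂ N) {v : ℕ} (hv : v ∈ (glue h).V) :
    (v ∈ F.V ∧ v ∉ R₀) ∨ ∃ w ∈ R₂, v = sg R₂ b b₂ N w := by
  by_cases h1 : v ∈ R1 R₂ N
  · unfold R1 at h1
    rw [Finset.mem_image] at h1
    obtain ⟨w, hw, rfl⟩ := h1
    exact Or.inr ⟨w, hw, (sg_mem hw).symm⟩
  · exact Or.inl ((glue_out h v).1 ⟨hv, h1⟩)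

theorem glue_pm (h : Ctx F F₂ m m₂ R₀ R₂ b b₂ N) : (glue h).IsPM (gm m m₂ N) := by
  intro v hv
  rcases glue_V h hv with ⟨h1, h2⟩ | ⟨w, hw, rfl⟩
  · rw [gm_old h h1]
    refine ⟨fun e he => (h.pm v h1).1 e he, fun u hu => ?_⟩
    obtain ⟨h3, h4, h5⟩ := mate_out h h1 h2 hu
    rw [gm_old h h3, glue_adj_out h h1 h2 h3 h4, glue_adj_out h h3 h4 h1 h2]
    exact (h.pm v h1).2 u hu
  · obtain ⟨u, hu, hu', hg⟩ := gm_new h hw
    rw [hg]
    refine ⟨fun e he => by simp at he, fun x hx => ?_⟩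
    have hx' : sg R₂ b b₂ N u = x := Sum.inr.inj hx
    subst hx'
    have hwV : w ∈ F₂.V := h.r₂.sub hw
    obtain ⟨h1, h2⟩ := (h.pm₂ w hwV).2 u hu'
    rw [glue_adj_sg h (Or.inl hw) (Or.inl hu) (Or.inl hw),
      glue_adj_sg h (Or.inl hu) (Or.inl hw) (Or.inl hu)]
    refine ⟨h1, ?_⟩
    obtain ⟨w', hw1, hw2, hw3⟩ := gm_new h hu
    rw [h2] at hw2
    rw [hw3, Sum.inr.inj hw2]

theorem glue_base (h : Ctx F F₂ m m₂ R₀ R₂ b b₂ N) : (glue h).base (gm m m₂ N) = F.base m := by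
  ext e
  by_cases hEe : e ∈ F.E
  · by_cases ha : ∃ v, F.att e v
    · obtain ⟨v, hv⟩ := ha
      rw [mem_base_iff (F := F) hv, mem_base_iff (F := glue h) (v := v) hv, gm_old h (att_V hv),
        glue_isP h (att_V hv)]
    · push Not at ha
      rw [mem_base_iff_of_free (F := F) hEe ha, mem_base_iff_of_free (F := glue h) hEe ha]
      rfl
  · constructor
    · exact fun h1 => absurd h1.1 hEe
    · exact fun h1 => absurd h1.1 hEe

theorem glue_D_out (h : Ctx F F₂ m m₂ R₀ R₂ b b₂ N) {x y : Vx} (hx : ∀ v ∈ R₀, x ≠ Sum.inr v)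
    (hy : ∀ v ∈ R₀, y ≠ Sum.inr v) (hD : F.D m x y) : (glue h).D (gm m m₂ N) x y := by
  rcases x with e | u <;> rcases y with e' | v
  · exact hD
  · exact ⟨hD.1, by rw [glue_base h]; exact hD.2⟩
  · exact ⟨hD.1, by rw [glue_base h]; exact hD.2⟩
  · have hu' : u ∉ R₀ := fun h1 => hx u h1 rfl
    have hv' : v ∉ R₀ := fun h1 => hy v h1 rfl
    rcases hD with ⟨h1, h2⟩ | ⟨h1, h2⟩
    · refine Or.inl ⟨(glue_adj_out h (adj_left h1) hu' (adj_right h1) hv').2 h1, ?_⟩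
      rw [gm_old h (adj_left h1)]
      exact h2
    · refine Or.inr ⟨(glue_adj_out h (adj_left h1) hv' (adj_right h1) hu').2 h1, ?_⟩
      rw [gm_old h (adj_right h1)]
      exact h2

theorem glue_D_sg (h : Ctx F F₂ m m₂ R₀ R₂ b b₂ N) {u v : ℕ} (huv : u ∈ R₂ ∨ v ∈ R₂)
    (hD : F₂.D m₂ (Sum.inr u) (Sum.inr v)) :
    (glue h).D (gm m m₂ N) (Sum.inr (sg R₂ b b₂ N u)) (Sum.inr (sg R₂ b b₂ N v)) := by
  rcases hD with ⟨h1, h2⟩ | ⟨h1, h2⟩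
  · obtain ⟨h3, h4⟩ := AA_of_adj h huv h1
    refine Or.inl ⟨(glue_adj_sg h h3 h4 huv).2 h1, fun h5 => ?_⟩
    rcases h3 with h3 | ⟨i, rfl⟩
    · obtain ⟨u', hu1, hu2, hu3⟩ := gm_new h h3
      rw [hu3] at h5
      have := sg_inj h (Or.inl hu1) h4 (Sum.inr.inj h5)
      exact h2 (this ▸ hu2)
    · have hv : v ∈ R₂ := huv.resolve_left (h.r₂.bmem i).2
      rw [sg_bd h, gm_old h (h.r.bmem i).1] at h5
      exact sg_not_mem h hv (mate_out h (h.r.bmem i).1 (h.r.bmem i).2 h5).1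
  · have hu : u ∈ R₂ := by
      rcases huv with h3 | h3
      · exact h3
      · obtain ⟨w, hw, hw'⟩ := h.r₂.closed v h3
        have := ((h.pm₂ u (adj_right h1)).2 v h2).2
        rw [this] at hw'
        exact Sum.inr.inj hw' ▸ hw
    obtain ⟨u', hu1, hu2, hu3⟩ := gm_new h hu
    rw [h2] at hu2
    have hv : v = u' := Sum.inr.inj hu2
    subst hv
    exact Or.inr ⟨(glue_adj_sg h (Or.inl hu1) (Or.inl hu) (Or.inl hu1)).2 h1, hu3⟩

/-- the colours -/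
def gcol (col col₂ : Bool → Set ℕ) (R₀ R₂ : Finset ℕ) (N : ℕ) (c : Bool) : Set ℕ :=
  {v | (v < N ∧ v ∉ R₀ ∧ v ∈ col c) ∨ ∃ w ∈ R₂, w ∈ col₂ c ∧ v = w + N}

theorem walk_new (h : Ctx F F₂ m m₂ R₀ R₂ b b₂ N) (col col₂ : Bool → Set ℕ) (c : Bool)
    (T' : Set Vx) (hT' : Sum.inr '' gcol col col₂ R₀ R₂ N c ⊆ T') {i j : Fin k}
    (hi : Sum.inr (b i) ∈ T') (hj : Sum.inr (b j) ∈ T')
    (hw : ∃ u v, F₂.D m₂ (Sum.inr (b₂ i)) (Sum.inr u) ∧
      RIn (F₂.D m₂) (Sum.inr '' {w | w ∈ R₂ ∧ w ∈ col₂ c}) (Sum.inr u) (Sum.inr v) ∧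
      F₂.D m₂ (Sum.inr v) (Sum.inr (b₂ j))) :
    RIn ((glue h).D (gm m m₂ N)) T' (Sum.inr (b i)) (Sum.inr (b j)) := by
  obtain ⟨u, v, h1, h2, h3⟩ := hw
  have hin : ∀ w, w ∈ R₂ → w ∈ col₂ c → (Sum.inr (sg R₂ b b₂ N w) : Vx) ∈ T' := by
    intro w hw hw'
    refine hT' ⟨_, ?_, rfl⟩
    exact Or.inr ⟨w, hw, hw', sg_mem hw⟩
  have hu : u ∈ R₂ ∧ u ∈ col₂ c := by
    obtain ⟨w, hw, he⟩ := h2.left_mem
    exact Sum.inr.inj he ▸ hw
  have hv : v ∈ R₂ ∧ v ∈ col₂ c := by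
    obtain ⟨w, hw, he⟩ := h2.right_mem
    exact Sum.inr.inj he ▸ hw
  have a1 := glue_D_sg h (Or.inr hu.1) h1
  have a3 := glue_D_sg h (Or.inl hv.1) h3
  rw [sg_bd h] at a1 a3
  have a2 : ∀ y : Vx, RIn (F₂.D m₂) (Sum.inr '' {w | w ∈ R₂ ∧ w ∈ col₂ c}) (Sum.inr u) y →
      ∃ w, y = Sum.inr w ∧
        RIn ((glue h).D (gm m m₂ N)) T' (Sum.inr (sg R₂ b b₂ N u)) (Sum.inr (sg R₂ b b₂ N w)) := by
    intro y hy
    refine hy.induct (p := fun y => ∃ w, y = Sum.inr w ∧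
        RIn ((glue h).D (gm m m₂ N)) T' (Sum.inr (sg R₂ b b₂ N u)) (Sum.inr (sg R₂ b b₂ N w)))
      ⟨u, rfl, RIn.refl (hin u hu.1 hu.2)⟩ ?_
    rintro _ _ ⟨w, hw, rfl⟩ ⟨w', hw', rfl⟩ hD ⟨w1, he, hR⟩
    have : w = w1 := Sum.inr.inj he
    subst this
    exact ⟨w', rfl, hR.tail (glue_D_sg h (Or.inl hw.1) hD) (hin w' hw'.1 hw'.2)⟩
  obtain ⟨w, he, hR⟩ := a2 _ h2
  have : v = w := Sum.inr.inj he
  subst this
  exact (RIn.head a1 hi hR).tail a3 hj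

/-- GLU -/
theorem glu : T_GLU := by
  classical
  intro M B R F m col hrig k R₀ b hreg F₂ m₂ col₂ R₂ b₂ hpm₂ hdis₂ hreg₂ hty
  have ht1 : ∀ i, F.isP (b i) ↔ F₂.isP (b₂ i) := by
    intro i
    have := congrFun (congrArg Prod.fst hty) i
    exact iff_of_eq this
  have ht2 : ∀ J : Set (Fin k), Cov F R₀ (b '' J) ↔ Cov F₂ R₂ (b₂ '' J) := by
    intro J
    have h1 : {J | Cov F R₀ (b '' J)} = {J | Cov F₂ R₂ (b₂ '' J)} :=
      congrArg (fun z => z.2.1) hty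
    exact Set.ext_iff.1 h1 J
  have ht3 : ∀ (c : Bool) (i j : Fin k), (∃ u v,
      F.D m (Sum.inr (b i)) (Sum.inr u) ∧
      RIn (F.D m) (Sum.inr '' {w | w ∈ R₀ ∧ w ∈ col c}) (Sum.inr u) (Sum.inr v) ∧
      F.D m (Sum.inr v) (Sum.inr (b j))) → (∃ u v,
      F₂.D m₂ (Sum.inr (b₂ i)) (Sum.inr u) ∧
      RIn (F₂.D m₂) (Sum.inr '' {w | w ∈ R₂ ∧ w ∈ col₂ c}) (Sum.inr u) (Sum.inr v) ∧
      F₂.D m₂ (Sum.inr v) (Sum.inr (b₂ j))) := by
    intro c i j h1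
    have h2 := congrFun (congrFun (congrFun (congrArg (fun z => z.2.2) hty) c) i) j
    exact (iff_of_eq h2).1 h1
  set N := F.V.sup id + 1 with hN
  have hN' : ∀ v ∈ F.V, v < N := fun v hv =>
    Nat.lt_succ_of_le (Finset.le_sup (f := id) hv)
  have h : Ctx F F₂ m m₂ R₀ R₂ b b₂ N := ⟨hN', hreg, hreg₂, ht1, hrig.pm, hpm₂⟩
  refine ⟨glue h, gm m m₂ N, gcol col col₂ R₀ R₂ N, ⟨glue_rep h M hrig.rep ht2, glue_pm h,
    (glue_base h).trans hrig.base, ?_, ?_⟩, ?_⟩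
  · rw [Set.disjoint_left]
    rintro v (⟨h1, -, h3⟩ | ⟨w, h1, h2, h3⟩) (⟨h4, -, h6⟩ | ⟨w', h4, h5, h6⟩)
    · exact Set.disjoint_left.1 hrig.disj h3 h6
    · omega
    · omega
    · have : w = w' := by omega
      subst this
      exact Set.disjoint_left.1 hdis₂ h2 h5
  · intro c s t hst
    have hw := hrig.hold c s t hst
    set T : Set Vx := ({Sum.inl s, Sum.inl t} : Set Vx) ∪ Sum.inr '' col c with hT
    set T' : Set Vx := ({Sum.inl s, Sum.inl t} : Set Vx) ∪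
      Sum.inr '' gcol col col₂ R₀ R₂ N c with hT'
    have hTT : ∀ y ∈ T, (∀ v, y = Sum.inr v → v ∈ F.V ∧ v ∉ R₀) → y ∈ T' := by
      rintro y (hy | ⟨v, hv, rfl⟩) h1
      · exact Or.inl hy
      · obtain ⟨h2, h3⟩ := h1 v rfl
        exact Or.inr ⟨v, Or.inl ⟨hN' v h2, h3, hv⟩, rfl⟩
    have hs : (Sum.inl s : Vx) ∈ T' := Or.inl (Or.inl rfl)
    have huV : ∀ x y : Vx, F.D m x y → ∀ v, (x = Sum.inr v ∨ y = Sum.inr v) → v ∈ F.V := by
      intro x y hD v hv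
      obtain ⟨h1, h2⟩ := D_uni hD
      rcases hv with rfl | rfl
      · rcases h1 with ⟨w, hw, he⟩ | ⟨e, -, he⟩
        · exact Sum.inr.inj he ▸ hw
        · simp at he
      · rcases h2 with ⟨w, hw, he⟩ | ⟨e, -, he⟩
        · exact Sum.inr.inj he ▸ hw
        · simp at he
    have hcolT : ∀ v, (Sum.inr v : Vx) ∈ T → v ∈ col c := by
      rintro v (h1 | ⟨w, hw, he⟩)
      · simp at h1
      · exact Sum.inr.inj he ▸ hw
    -- a neighbour of the region outside it is a boundary vertex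
    have hbd : ∀ (x : Vx) (v : ℕ), v ∈ R₀ → (∀ w ∈ R₀, x ≠ Sum.inr w) →
        (F.D m x (Sum.inr v) ∨ F.D m (Sum.inr v) x) → ∃ i, x = Sum.inr (b i) := by
      intro x v hv hx hD
      rcases x with e | w
      · rcases hD with hD | hD
        · exact absurd hv (hreg.leafless e v hD.1)
        · exact absurd hv (hreg.leafless e v hD.1)
      · have h1 : F.adj w v ∨ F.adj v w := by
          rcases hD with (⟨h1, -⟩ | ⟨h1, -⟩) | (⟨h1, -⟩ | ⟨h1, -⟩)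
          · exact Or.inl h1
          · exact Or.inr h1
          · exact Or.inr h1
          · exact Or.inl h1
        rcases hreg.bcov v hv w h1 with h2 | ⟨i, hi⟩
        · exact absurd rfl (hx w h2)
        · exact ⟨i, by rw [hi]⟩
    have key : ∀ y, RIn (F.D m) T (Sum.inl s) y →
        ((∀ v ∈ R₀, y ≠ Sum.inr v) ∧ RIn ((glue h).D (gm m m₂ N)) T' (Sum.inl s) y) ∨
        (∃ i u v, v ∈ R₀ ∧ y = Sum.inr v ∧
          RIn ((glue h).D (gm m m₂ N)) T' (Sum.inl s) (Sum.inr (b i)) ∧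
          F.D m (Sum.inr (b i)) (Sum.inr u) ∧
          RIn (F.D m) (Sum.inr '' {w | w ∈ R₀ ∧ w ∈ col c}) (Sum.inr u) (Sum.inr v)) := by
      intro y hy
      refine hy.induct (p := fun y =>
        ((∀ v ∈ R₀, y ≠ Sum.inr v) ∧ RIn ((glue h).D (gm m m₂ N)) T' (Sum.inl s) y) ∨
        (∃ i u v, v ∈ R₀ ∧ y = Sum.inr v ∧
          RIn ((glue h).D (gm m m₂ N)) T' (Sum.inl s) (Sum.inr (b i)) ∧
          F.D m (Sum.inr (b i)) (Sum.inr u) ∧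
          RIn (F.D m) (Sum.inr '' {w | w ∈ R₀ ∧ w ∈ col c}) (Sum.inr u) (Sum.inr v)))
        (Or.inl ⟨fun v _ => by simp, RIn.refl hs⟩) ?_
      intro x y hxT hyT hD hp
      by_cases hyR : ∃ v ∈ R₀, y = Sum.inr v
      · obtain ⟨v, hv, rfl⟩ := hyR
        right
        rcases hp with ⟨h1, h2⟩ | ⟨i, u, w, hw, rfl, h3, h4, h5⟩
        · obtain ⟨i, rfl⟩ := hbd x v hv h1 (Or.inl hD)
          exact ⟨i, v, v, hv, rfl, h2, hD, RIn.refl ⟨v, ⟨hv, hcolT v hyT⟩, rfl⟩⟩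
        · exact ⟨i, u, v, hv, rfl, h3, h4, h5.tail hD ⟨v, ⟨hv, hcolT v hyT⟩, rfl⟩⟩
      · push Not at hyR
        left
        refine ⟨hyR, ?_⟩
        have hyT' : y ∈ T' := hTT y hyT fun v hv =>
          ⟨huV x y hD v (Or.inr hv), fun h1 => hyR v h1 hv⟩
        rcases hp with ⟨h1, h2⟩ | ⟨i, u, w, hw, rfl, h3, h4, h5⟩
        · exact h2.tail (glue_D_out h h1 hyR hD) hyT'
        · obtain ⟨j, rfl⟩ := hbd y w hw hyR (Or.inr hD)
          refine h3.trans ?_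
          exact walk_new h col col₂ c T' (fun z hz => Or.inr hz) h3.right_mem hyT'
            (ht3 c i j ⟨u, w, h4, h5, hD⟩)
    rcases key _ hw with ⟨-, h1⟩ | ⟨i, u, v, hv, he, -⟩
    · exact h1
    · simp at he
  · have hd : Disjoint (F.V \ R₀) (R₂.image (fun w => w + N)) := by
      rw [Finset.disjoint_left]
      intro v hv hv'
      rw [Finset.mem_image] at hv'
      obtain ⟨w, -, hw⟩ := hv'
      have := hN' v (Finset.mem_sdiff.1 hv).1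
      omega
    have h1 : (glue h).V.card = (F.V \ R₀).card + (R₂.image (fun w => w + N)).card :=
      Finset.card_union_of_disjoint hd
    have h2 : (R₂.image (fun w => w + N)).card = R₂.card :=
      Finset.card_image_of_injective _ (add_left_injective N)
    have h3 : (F.V \ R₀).card + R₀.card = F.V.card := Finset.card_sdiff_add_card_eq_card hreg.sub
    omega

end Pool.Agent.H36.GW
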